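import Pool.Agent.Helper47_Leo4.Sqf2

/-! Squad leo4, module SQF: counting squarefree elements. -/

set_option autoImplicit false

namespace Pool.Agent.Leo4.H47

open Filter Topology Pool.Agent.Leo4

/-! ### finite unions -/

theorem ncard_bU {α : Type*} (A : ℕ → Set α) (M : ℕ) :
    ({x | ∃ n < M, x ∈ A n} : Set α).ncard ≤ ∑ n ∈ Finset.range M, (A n).ncard := by
  induction M with
  | zero =>
    have h : ({x | ∃ n < 0, x ∈ A n} : Set α) = ∅ := by
      ext x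
      simp
    rw [h, Set.ncard_empty]
    exact Nat.zero_le _
  | succ M ih =>
    have h : ({x | ∃ n < M + 1, x ∈ A n} : Set α) = {x | ∃ n < M, x ∈ A n} ∪ A M := by
      ext x
      constructor
      · rintro ⟨n, hn, hx⟩
        rcases Nat.lt_succ_iff_lt_or_eq.mp hn with h1 | h1
        · exact Or.inl ⟨n, h1, hx⟩
        · exact Or.inr (h1 ▸ hx)
      · rintro (⟨n, hn, hx⟩ | hx)
        · exact ⟨n, Nat.lt_succ_of_lt hn, hx⟩
        · exact ⟨M, Nat.lt_succ_self M, hx⟩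
    rw [h, Finset.sum_range_succ]
    exact (Set.ncard_union_le _ _).trans (Nat.add_le_add_right ih _)

/-- the elements of the counted set which are not squarefree -/
theorem nsq_card [IsPrincipalIdealRing O] (hfin : ∀ N : ℝ, (FS N).Finite) (N : ℝ) (M : ℕ)
    (hM : N < (M : ℝ) ^ 2) :
    ({m : O | m ∈ FS N ∧ ¬ Squarefree m}.ncard : ℝ) ≤
      ∑ n ∈ Finset.range M, (wt n : ℝ) * ((FS (N / (n : ℝ) ^ 2)).ncard : ℝ) := by
  have hsub : {m : O | m ∈ FS N ∧ ¬ Squarefree m} ⊆ {m : O | ∃ n < M, m ∈ DS N n} := by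
    rintro m ⟨hm, hs⟩
    have hm0 : m ≠ 0 := by
      rintro rfl
      exact absurd hm.1.1 (by rw [e1_zero]; exact lt_irrefl _)
    obtain ⟨p, hp, hpd⟩ : ∃ p : O, Prime p ∧ p ^ 2 ∣ m := by
      by_contra hcon
      apply hs
      rw [squarefree_iff_irreducible_sq_not_dvd_of_ne_zero hm0]
      intro x hx hd
      exact hcon ⟨x, hx.prime, by rw [pow_two]; exact hd⟩
    refine ⟨(nm p).natAbs, ?_, hm, p, hp, rfl, hpd⟩
    obtain ⟨t, ht⟩ := hpd
    have h1 : (nm m : ℝ) = (((nm p).natAbs : ℕ) : ℝ) ^ 2 * (nm t : ℝ) := by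
      have h2 : nm m = nm p ^ 2 * nm t := by rw [ht, nm_mul, nm_pow]
      have h3 : (nm m : ℝ) = (nm p : ℝ) ^ 2 * (nm t : ℝ) := by exact_mod_cast h2
      rw [h3, sq_abs_nm]
    have h4 : 0 < (nm m : ℝ) := by
      rw [nm_eq]
      exact mul_pos hm.1.1 hm.1.2.1
    have h5 : (1 : ℝ) ≤ (nm t : ℝ) := by
      have h6 : 0 < (nm t : ℝ) := by
        rw [h1] at h4
        exact (pos_iff_pos_of_mul_pos h4).mp (lt_of_le_of_ne (sq_nonneg _) (by
          intro h7
          rw [← h7, zero_mul] at h4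
          exact lt_irrefl _ h4))
      have h8 : (0 : ℤ) < nm t := by exact_mod_cast h6
      exact_mod_cast h8
    have h9 : (((nm p).natAbs : ℕ) : ℝ) ^ 2 < (M : ℝ) ^ 2 := by
      calc (((nm p).natAbs : ℕ) : ℝ) ^ 2 ≤ (((nm p).natAbs : ℕ) : ℝ) ^ 2 * (nm t : ℝ) :=
            le_mul_of_one_le_right (sq_nonneg _) h5
        _ = (nm m : ℝ) := h1.symm
        _ ≤ N := hm.2.2
        _ < (M : ℝ) ^ 2 := hM
    have h10 := lt_of_pow_lt_pow_left₀ 2 (Nat.cast_nonneg M) h9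
    exact_mod_cast h10
  have hfin2 : {m : O | ∃ n < M, m ∈ DS N n}.Finite :=
    (hfin N).subset (by
      rintro m ⟨n, -, hm⟩
      exact hm.1)
  have h1 := (Set.ncard_le_ncard hsub hfin2).trans (ncard_bU (DS N) M)
  have h2 : (∑ n ∈ Finset.range M, (DS N n).ncard) ≤
      ∑ n ∈ Finset.range M, wt n * (FS (N / (n : ℝ) ^ 2)).ncard :=
    Finset.sum_le_sum fun n _ => ds_card hfin N n
  have h3 := h1.trans h2
  exact_mod_cast h3

/-! ### the sum of the weights -/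

theorem wt_le (n : ℕ) : wt n ≤ 2 := by
  unfold wt
  split_ifs <;> omega

theorem wt_sum (K : ℕ) : ∑ n ∈ Finset.range (30 * (K + 1)), (wt n : ℝ) / (n : ℝ) ^ 2 ≤
    823 / 10000 - 16 / 900 / (K + 1) := by
  induction K with
  | zero =>
    have h : ∑ n ∈ Finset.range (30 * (0 + 1)), (wt n : ℝ) / (n : ℝ) ^ 2 =
        1 / 25 + 2 / 121 + 2 / 361 + 2 / 841 := by
      simp only [Finset.sum_range_succ, Finset.sum_range_zero, wt]
      norm_num
    rw [h]
    norm_num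
  | succ K ih =>
    have h1 : 30 * (K + 1 + 1) = 30 * (K + 1) + 30 := by ring
    rw [h1, Finset.sum_range_add]
    have h2 : ∀ i ∈ Finset.range 30, (wt (30 * (K + 1) + i) : ℝ) / ((30 * (K + 1) + i : ℕ) : ℝ) ^ 2 ≤
        (if i = 1 ∨ i = 11 ∨ i = 19 ∨ i = 29 then 2 else 0) / (900 * ((K : ℝ) + 1) ^ 2) := by
      intro i hi
      rw [Finset.mem_range] at hi
      have h3 : (wt (30 * (K + 1) + i) : ℝ) =
          (if i = 1 ∨ i = 11 ∨ i = 19 ∨ i = 29 then 2 else 0) := by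
        unfold wt
        have h4 : ¬ (30 * (K + 1) + i = 5) := by omega
        rw [if_neg h4]
        by_cases h5 : i = 1 ∨ i = 11 ∨ i = 19 ∨ i = 29
        · rw [if_pos h5, if_pos (by omega)]
          norm_num
        · rw [if_neg h5, if_neg (by omega)]
          norm_num
      rw [h3]
      have h6 : (0 : ℝ) ≤ (if i = 1 ∨ i = 11 ∨ i = 19 ∨ i = 29 then 2 else 0) := by
        split_ifs <;> norm_num
      refine div_le_div_of_nonneg_left h6 (by positivity) ?_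
      push_cast
      have h7 : (0 : ℝ) ≤ (i : ℝ) := Nat.cast_nonneg i
      have h8 : (0 : ℝ) ≤ (K : ℝ) := Nat.cast_nonneg K
      nlinarith
    have h3 := Finset.sum_le_sum h2
    have h4 : ∑ i ∈ Finset.range 30,
        ((if i = 1 ∨ i = 11 ∨ i = 19 ∨ i = 29 then 2 else 0) / (900 * ((K : ℝ) + 1) ^ 2) : ℝ) =
        8 / (900 * ((K : ℝ) + 1) ^ 2) := by
      rw [← Finset.sum_div]
      congr 1
      simp only [Finset.sum_range_succ, Finset.sum_range_zero]
      norm_num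
    rw [h4] at h3
    have h5 : 8 / (900 * ((K : ℝ) + 1) ^ 2) ≤ 16 / 900 / ((K : ℝ) + 1) -
        16 / 900 / (((K + 1 : ℕ) : ℝ) + 1) := by
      have h8 : (0 : ℝ) ≤ (K : ℝ) := Nat.cast_nonneg K
      push_cast
      rw [div_div, div_div, div_sub_div _ _ (by positivity) (by positivity),
        div_le_div_iff₀ (by positivity) (by positivity)]
      nlinarith [mul_nonneg h8 h8, mul_nonneg h8 (mul_nonneg h8 h8)]
    linarith

theorem wt_sum' (Y : ℕ) : ∑ n ∈ Finset.range Y, (wt n : ℝ) / (n : ℝ) ^ 2 ≤ 823 / 10000 := by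
  have h1 : Finset.range Y ⊆ Finset.range (30 * (Y + 1)) := by
    intro n hn
    rw [Finset.mem_range] at hn ⊢
    omega
  have h2 := Finset.sum_le_sum_of_subset_of_nonneg (f := fun n : ℕ => (wt n : ℝ) / (n : ℝ) ^ 2) h1
    (fun n _ _ => by positivity)
  have h3 := wt_sum Y
  have h4 : (0 : ℝ) ≤ 16 / 900 / ((Y : ℝ) + 1) := by positivity
  linarith

/-! ### the asymptotics -/

theorem sqf_aux [IsPrincipalIdealRing O] (hfin : ∀ N : ℝ, (FS N).Finite) (C L : ℝ) (hC0 : 0 ≤ C)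
    (hL0 : 0 ≤ L) (hC : ∀ N : ℝ, 0 < N → ((FS N).ncard : ℝ) ≤ C * N)
    (hL : Tendsto (fun N : ℝ => ((FS N).ncard : ℝ) / N) atTop (𝓝 L)) (ε : ℝ) (hε : 0 < ε) :
    ∃ N₀ : ℝ, ∀ N : ℝ, N₀ ≤ N → (9 / 10 * L - ε) * N ≤
      ({m : O | m ∈ FS N ∧ Squarefree m}.ncard : ℝ) := by
  obtain ⟨δ, hδ, hδε⟩ : ∃ δ : ℝ, 0 < δ ∧ 2 * δ ≤ ε / 2 := ⟨ε / 4, by positivity, by linarith⟩
  obtain ⟨Y, hY⟩ : ∃ Y : ℕ, 4 * C / ((Y : ℝ) + 1) ≤ ε / 2 := by
    obtain ⟨Y, hY⟩ := exists_nat_gt (8 * C / ε)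
    refine ⟨Y, ?_⟩
    rw [div_lt_iff₀ hε] at hY
    rw [div_le_iff₀ (by positivity)]
    nlinarith
  have hev := (tendsto_order.1 hL).2 (L + δ) (by linarith)
  have hev2 := (tendsto_order.1 hL).1 (L - δ) (by linarith)
  obtain ⟨N1, hN1⟩ := eventually_atTop.mp (hev.and (hev2.and (eventually_gt_atTop (0 : ℝ))))
  have hN1' : ∀ N : ℝ, N1 ≤ N → 0 < N ∧ ((FS N).ncard : ℝ) ≤ (L + δ) * N ∧
      (L - δ) * N ≤ ((FS N).ncard : ℝ) := by
    intro N hN
    obtain ⟨h1, h2, h3⟩ := hN1 N hN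
    rw [div_lt_iff₀ h3] at h1
    rw [lt_div_iff₀ h3] at h2
    exact ⟨h3, h1.le, h2.le⟩
  refine ⟨max 1 (|N1| * ((Y : ℝ) + 1) ^ 2), fun N hN => ?_⟩
  have hNY : |N1| * ((Y : ℝ) + 1) ^ 2 ≤ N := (le_max_right _ _).trans hN
  have hN0 : 0 < N := lt_of_lt_of_le one_pos ((le_max_left _ _).trans hN)
  have hNN : N1 ≤ N := by
    have h1 : |N1| * 1 ≤ |N1| * ((Y : ℝ) + 1) ^ 2 := by
      refine mul_le_mul_of_nonneg_left ?_ (abs_nonneg _)
      have : (0 : ℝ) ≤ Y := Nat.cast_nonneg Y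
      nlinarith
    have h2 := le_abs_self N1
    linarith
  obtain ⟨-, -, hlow⟩ := hN1' N hNN
  obtain ⟨M, hM⟩ : ∃ M : ℕ, N < (M : ℝ) ^ 2 := by
    obtain ⟨M, hM⟩ := exists_nat_gt (N + 1)
    refine ⟨M, ?_⟩
    nlinarith
  have hns := nsq_card hfin N M hM
  have hsum : ∑ n ∈ Finset.range M, (wt n : ℝ) * ((FS (N / (n : ℝ) ^ 2)).ncard : ℝ) ≤
      (L + δ) * N * (823 / 10000) + 2 * C * N * (2 / ((Y : ℝ) + 1)) := by
    have hsub : Finset.range M ⊆ Finset.range (Y + 1) ∪ Finset.Ioo Y M := by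
      intro n hn
      rw [Finset.mem_range] at hn
      rw [Finset.mem_union, Finset.mem_range, Finset.mem_Ioo]
      omega
    have h1 := Finset.sum_le_sum_of_subset_of_nonneg
      (f := fun n : ℕ => (wt n : ℝ) * ((FS (N / (n : ℝ) ^ 2)).ncard : ℝ)) hsub
      (fun n _ _ => by positivity)
    have hdisj : Disjoint (Finset.range (Y + 1)) (Finset.Ioo Y M) := by
      rw [Finset.disjoint_left]
      intro n hn hn2
      rw [Finset.mem_range] at hn
      rw [Finset.mem_Ioo] at hn2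
      omega
    rw [Finset.sum_union hdisj] at h1
    have h2 : ∑ n ∈ Finset.range (Y + 1), (wt n : ℝ) * ((FS (N / (n : ℝ) ^ 2)).ncard : ℝ) ≤
        (L + δ) * N * (823 / 10000) := by
      calc ∑ n ∈ Finset.range (Y + 1), (wt n : ℝ) * ((FS (N / (n : ℝ) ^ 2)).ncard : ℝ)
          ≤ ∑ n ∈ Finset.range (Y + 1), (L + δ) * N * ((wt n : ℝ) / (n : ℝ) ^ 2) := by
            refine Finset.sum_le_sum fun n hn => ?_
            rw [Finset.mem_range] at hn
            rcases Nat.eq_zero_or_pos n with h0 | h0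
            · have h3 : wt 0 = 0 := rfl
              rw [h0, h3]
              simp
            · have h3 : (0 : ℝ) < (n : ℝ) := by exact_mod_cast h0
              have h4 : N1 ≤ N / (n : ℝ) ^ 2 := by
                rw [le_div_iff₀ (by positivity)]
                have h5 : (n : ℝ) ≤ (Y : ℝ) + 1 := by exact_mod_cast hn.le
                calc N1 * (n : ℝ) ^ 2 ≤ |N1| * (n : ℝ) ^ 2 :=
                      mul_le_mul_of_nonneg_right (le_abs_self _) (by positivity)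
                  _ ≤ |N1| * ((Y : ℝ) + 1) ^ 2 := mul_le_mul_of_nonneg_left
                      (pow_le_pow_left₀ h3.le h5 2) (abs_nonneg _)
                  _ ≤ N := hNY
              have h6 := (hN1' _ h4).2.1
              calc (wt n : ℝ) * ((FS (N / (n : ℝ) ^ 2)).ncard : ℝ)
                  ≤ (wt n : ℝ) * ((L + δ) * (N / (n : ℝ) ^ 2)) :=
                    mul_le_mul_of_nonneg_left h6 (Nat.cast_nonneg _)
                _ = (L + δ) * N * ((wt n : ℝ) / (n : ℝ) ^ 2) := by ring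
        _ = (L + δ) * N * ∑ n ∈ Finset.range (Y + 1), (wt n : ℝ) / (n : ℝ) ^ 2 := by
            rw [Finset.mul_sum]
        _ ≤ (L + δ) * N * (823 / 10000) :=
            mul_le_mul_of_nonneg_left (wt_sum' _) (by positivity)
    have h3 : ∑ n ∈ Finset.Ioo Y M, (wt n : ℝ) * ((FS (N / (n : ℝ) ^ 2)).ncard : ℝ) ≤
        2 * C * N * (2 / ((Y : ℝ) + 1)) := by
      calc ∑ n ∈ Finset.Ioo Y M, (wt n : ℝ) * ((FS (N / (n : ℝ) ^ 2)).ncard : ℝ)
          ≤ ∑ n ∈ Finset.Ioo Y M, 2 * C * N * ((n : ℝ) ^ 2)⁻¹ := by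
            refine Finset.sum_le_sum fun n hn => ?_
            rw [Finset.mem_Ioo] at hn
            have h3 : (0 : ℝ) < (n : ℝ) := by exact_mod_cast (by omega : 0 < n)
            have h4 := hC (N / (n : ℝ) ^ 2) (by positivity)
            have h5 : (wt n : ℝ) ≤ 2 := by exact_mod_cast wt_le n
            calc (wt n : ℝ) * ((FS (N / (n : ℝ) ^ 2)).ncard : ℝ)
                ≤ 2 * (C * (N / (n : ℝ) ^ 2)) := by
                  refine mul_le_mul h5 h4 (Nat.cast_nonneg _) (by norm_num)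
              _ = 2 * C * N * ((n : ℝ) ^ 2)⁻¹ := by
                  rw [div_eq_mul_inv]
                  ring
        _ = 2 * C * N * ∑ n ∈ Finset.Ioo Y M, ((n : ℝ) ^ 2)⁻¹ := by rw [Finset.mul_sum]
        _ ≤ 2 * C * N * (2 / ((Y : ℝ) + 1)) := by
            refine mul_le_mul_of_nonneg_left ?_ (by positivity)
            exact sum_Ioo_inv_sq_le Y M
    linarith
  have hsplit : ((FS N).ncard : ℝ) ≤ ({m : O | m ∈ FS N ∧ Squarefree m}.ncard : ℝ) +
      ({m : O | m ∈ FS N ∧ ¬ Squarefree m}.ncard : ℝ) := by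
    have h1 : FS N = {m : O | m ∈ FS N ∧ Squarefree m} ∪ {m : O | m ∈ FS N ∧ ¬ Squarefree m} := by
      ext m
      constructor
      · intro hm
        by_cases hs : Squarefree m
        · exact Or.inl ⟨hm, hs⟩
        · exact Or.inr ⟨hm, hs⟩
      · rintro (h | h) <;> exact h.1
    have h2 : (FS N).ncard ≤ {m : O | m ∈ FS N ∧ Squarefree m}.ncard +
        {m : O | m ∈ FS N ∧ ¬ Squarefree m}.ncard := by
      conv_lhs => rw [h1]
      exact Set.ncard_union_le _ _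
    exact_mod_cast h2
  have h10 : 2 * C * N * (2 / ((Y : ℝ) + 1)) ≤ ε / 2 * N := by
    have h11 : 2 * C * N * (2 / ((Y : ℝ) + 1)) = 4 * C / ((Y : ℝ) + 1) * N := by ring
    rw [h11]
    exact mul_le_mul_of_nonneg_right hY hN0.le
  have h12 : (9 / 10 * L - ε) * N ≤ (L - δ) * N - (L + δ) * N * (823 / 10000) - ε / 2 * N := by
    have h13 : (9 / 10 * L - ε) ≤ (L - δ) - (L + δ) * (823 / 10000) - ε / 2 := by nlinarith
    calc (9 / 10 * L - ε) * N ≤ ((L - δ) - (L + δ) * (823 / 10000) - ε / 2) * N :=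
          mul_le_mul_of_nonneg_right h13 hN0.le
      _ = (L - δ) * N - (L + δ) * N * (823 / 10000) - ε / 2 * N := by ring
  linarith

/-- SQF -/
theorem sqf (h1 : OkrStmt) (h2 : MctStmt) : SqfStmt := by
  obtain ⟨-, hP, -⟩ := h1
  obtain ⟨hfin, ⟨C, hC⟩, hL⟩ := h2
  intro ε hε
  have hg : 0 < Real.log g := Real.log_pos Real.one_lt_goldenRatio
  obtain ⟨N₀, h⟩ := sqf_aux hfin (max C 0) (Real.log g / (12 * Real.sqrt 5)) (le_max_right _ _)
    (by positivity) (fun N hN => (hC N hN).trans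
      (mul_le_mul_of_nonneg_right (le_max_left _ _) hN.le)) hL ε hε
  refine ⟨N₀, fun N hN => (h N hN).trans (le_of_eq ?_)⟩
  have h3 : {m : O | m ∈ FS N ∧ Squarefree m} = {m : O | Fd m ∧ Good m ∧ (nm m : ℝ) ≤ N} := by
    ext m
    constructor
    · rintro ⟨⟨h4, h5, h6⟩, h7⟩
      exact ⟨h4, ⟨h4.1, h4.2.1, h7, h5⟩, h6⟩
    · rintro ⟨h4, h5, h6⟩
      exact ⟨⟨h4, h5.cls, h6⟩, h5.sqf⟩
  rw [h3]

end Pool.Agent.Leo4.H47
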