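import Pool.Agent.Helper68_Leo4.Okr

/-! Squad leo4, module SQF, part 1: units, the fundamental domain, primes, the classes. -/

set_option autoImplicit false

namespace Pool.Agent.Leo4.H47

open Pool.Agent.Leo4

/-! ### the unit `φ` -/

/-- the unit `φ` -/
def ph : Oˣ where
  val := phi
  inv := phi - 1
  val_inv := by
    ext <;> simp [phi, QuadraticAlgebra.re_one, QuadraticAlgebra.im_one]
  inv_val := by
    ext <;> simp [phi, QuadraticAlgebra.re_one, QuadraticAlgebra.im_one]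

theorem ev_ph {f : ℝ} (hf : f ^ 2 = f + 1) (k : ℤ) : ev f ((ph ^ k : Oˣ) : O) = f ^ k := by
  have h := map_zpow (Units.map (evHom f hf).toMonoidHom) ph k
  have h2 := congrArg Units.val h
  rw [Units.val_zpow_eq_zpow_val] at h2
  have h3 : ((Units.map (evHom f hf).toMonoidHom ph : ℝˣ) : ℝ) = f := ev_phi f
  rw [h3] at h2
  exact h2

/-- `G = g²` -/
noncomputable abbrev G : ℝ := g ^ 2

theorem G_gt : 1 < G := by
  have h := Real.one_lt_goldenRatio
  show 1 < Real.goldenRatio ^ 2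
  nlinarith

theorem G_pos : 0 < G := lt_trans one_pos G_gt

theorem gbar_sq : Real.goldenConj ^ 2 = G⁻¹ := by
  have h : Real.goldenRatio * Real.goldenConj = -1 := Real.goldenRatio_mul_goldenConj
  have h2 : G * Real.goldenConj ^ 2 = 1 := by
    show Real.goldenRatio ^ 2 * Real.goldenConj ^ 2 = 1
    rw [← mul_pow, h]
    norm_num
  exact eq_inv_of_mul_eq_one_right h2

theorem e1_ph2 (k : ℤ) : e1 (((ph ^ k : Oˣ) : O) ^ 2) = G ^ k := by
  rw [e1_pow]
  show (ev Real.goldenRatio ((ph ^ k : Oˣ) : O)) ^ 2 = (Real.goldenRatio ^ 2) ^ k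
  rw [ev_ph gold_sq, ← zpow_natCast, ← zpow_natCast, ← zpow_mul, ← zpow_mul, mul_comm]

theorem e2_ph2 (k : ℤ) : e2 (((ph ^ k : Oˣ) : O) ^ 2) = (G ^ k)⁻¹ := by
  rw [e2_pow, ← inv_zpow, ← gbar_sq]
  show (ev Real.goldenConj ((ph ^ k : Oˣ) : O)) ^ 2 = (Real.goldenConj ^ 2) ^ k
  rw [ev_ph conj_sq, ← zpow_natCast, ← zpow_natCast, ← zpow_mul, ← zpow_mul, mul_comm]

theorem nm_ph2 (k : ℤ) : nm (((ph ^ k : Oˣ) : O) ^ 2) = 1 := by
  have h := nm_eq (((ph ^ k : Oˣ) : O) ^ 2)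
  rw [e1_ph2, e2_ph2, mul_inv_cancel₀ (zpow_pos G_pos k).ne'] at h
  exact_mod_cast h

/-! ### the fundamental domain -/

theorem fd_exists {x : O} (h1 : 0 < e1 x) (h2 : 0 < e2 x) :
    ∃ k : ℤ, Fd (((ph ^ k : Oˣ) : O) ^ 2 * x) := by
  have hG := G_pos
  have hG1 := G_gt
  obtain ⟨n, hn1, hn2⟩ := exists_mem_Ico_zpow (x := e1 x / e2 x * G) (y := G ^ 2) (by positivity)
    (by nlinarith)
  refine ⟨-n, ?_⟩
  set A : ℝ := G ^ n with hA
  have hA0 : 0 < A := zpow_pos hG n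
  have e3 : e1 (((ph ^ (-n) : Oˣ) : O) ^ 2 * x) = A⁻¹ * e1 x := by
    rw [e1_mul, e1_ph2, zpow_neg]
  have e4 : e2 (((ph ^ (-n) : Oˣ) : O) ^ 2 * x) = A * e2 x := by
    rw [e2_mul, e2_ph2, zpow_neg, inv_inv]
  have hp : (G ^ 2) ^ n = A ^ 2 := by
    rw [hA, ← zpow_natCast, ← zpow_natCast, ← zpow_mul, ← zpow_mul, mul_comm]
  have hp2 : (G ^ 2) ^ (n + 1) = A ^ 2 * G ^ 2 := by
    rw [zpow_add₀ (by positivity), zpow_one, hp]
  rw [hp] at hn1
  rw [hp2] at hn2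
  have h3 : A ^ 2 * e2 x ≤ e1 x * G := by
    have := mul_le_mul_of_nonneg_right hn1 h2.le
    calc A ^ 2 * e2 x ≤ e1 x / e2 x * G * e2 x := this
      _ = e1 x * G := by field_simp
  have h4 : e1 x < A ^ 2 * G * e2 x := by
    have := mul_lt_mul_of_pos_right hn2 h2
    have h5 : e1 x / e2 x * G * e2 x = e1 x * G := by field_simp
    rw [h5] at this
    have h6 : A ^ 2 * G ^ 2 * e2 x = (A ^ 2 * G * e2 x) * G := by ring
    rw [h6] at this
    exact lt_of_mul_lt_mul_right this hG.le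
  refine ⟨by rw [e3]; positivity, by rw [e4]; positivity, ?_, ?_⟩
  · rw [e3, e4]
    show A⁻¹ * e1 x < G * (A * e2 x)
    rw [inv_mul_lt_iff₀ hA0]
    calc e1 x < A ^ 2 * G * e2 x := h4
      _ = A * (G * (A * e2 x)) := by ring
  · rw [e3, e4]
    show A * e2 x ≤ G * (A⁻¹ * e1 x)
    have h7 : G * (A⁻¹ * e1 x) = A⁻¹ * (e1 x * G) := by ring
    rw [h7, le_inv_mul_iff₀ hA0]
    calc A * (A * e2 x) = A ^ 2 * e2 x := by ring
      _ ≤ e1 x * G := h3

theorem fd_unique {x y : O} (hx : Fd x) (hy : Fd y) {c : ℤ}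
    (h : x = ((ph ^ c : Oˣ) : O) ^ 2 * y) : x = y := by
  obtain ⟨x1, x2, x3, x4⟩ := hx
  obtain ⟨y1, y2, y3, y4⟩ := hy
  have hG := G_pos
  have hG1 := G_gt
  have e3 : e1 x = G ^ c * e1 y := by rw [h, e1_mul, e1_ph2]
  have e4 : e2 x = (G ^ c)⁻¹ * e2 y := by rw [h, e2_mul, e2_ph2]
  have x3' : e1 x < G * e2 x := x3
  have x4' : e2 x ≤ G * e1 x := x4
  have y3' : e1 y < G * e2 y := y3
  have y4' : e2 y ≤ G * e1 y := y4
  set A : ℝ := G ^ c with hA
  have hA0 : 0 < A := zpow_pos hG c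
  rcases lt_trichotomy c 0 with hc | hc | hc
  · exfalso
    have hB : A ≤ G⁻¹ := by
      rw [hA, ← zpow_neg_one]
      exact zpow_le_zpow_right₀ hG1.le (by omega)
    have hAG : A * G ≤ 1 := by
      calc A * G ≤ G⁻¹ * G := mul_le_mul_of_nonneg_right hB hG.le
        _ = 1 := inv_mul_cancel₀ hG.ne'
    have e5 : e2 y = A * e2 x := by rw [e4, mul_inv_cancel_left₀ hA0.ne']
    -- e1 x = A e1 y < A G e2 y ≤ e2 y = A e2 x ≤ A G e1 x ≤ e1 x
    have s1 : e1 x < A * G * e2 y := by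
      rw [e3, mul_assoc]
      exact mul_lt_mul_of_pos_left y3' hA0
    have s2 : A * G * e2 y ≤ e2 y := by nlinarith
    have s3 : e2 y ≤ A * G * e1 x := by
      rw [e5, mul_assoc]
      exact mul_le_mul_of_nonneg_left x4' hA0.le
    have s4 : A * G * e1 x ≤ e1 x := by nlinarith
    linarith
  · rw [h, hc, zpow_zero, Units.val_one, one_pow, one_mul]
  · exfalso
    have hB : G ≤ A := by
      have h5 : G ^ (1 : ℤ) ≤ A := zpow_le_zpow_right₀ hG1.le (by omega)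
      rwa [zpow_one] at h5
    have e5 : A * e2 x = e2 y := by rw [e4, mul_inv_cancel_left₀ hA0.ne']
    -- A e1 y = e1 x < G e2 x ≤ A e2 x = e2 y ≤ G e1 y ≤ A e1 y
    have s1 : A * e1 y < G * e2 x := by rw [← e3]; exact x3'
    have s2 : G * e2 x ≤ A * e2 x := mul_le_mul_of_nonneg_right hB x2.le
    have s3 : G * e1 y ≤ A * e1 y := mul_le_mul_of_nonneg_right hB y1.le
    linarith

/-! ### the classes -/

/-- squaring is surjective modulo two -/
theorem sqrt_two (c : O) : ∃ x : O, (2 : O) ∣ x ^ 2 - c := by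
  refine ⟨⟨c.re + c.im, c.im⟩, ?_⟩
  rw [two_dvd_iff, pow_two]
  simp only [QuadraticAlgebra.re_sub, QuadraticAlgebra.im_sub, QuadraticAlgebra.re_mul,
    QuadraticAlgebra.im_mul]
  constructor
  · have h1 : (2 : ℤ) ∣ c.re * (c.re - 1) := Int.even_mul_pred_self _ |>.two_dvd
    have h2 : (c.re + c.im) * (c.re + c.im) + 1 * c.im * c.im - c.re =
      c.re * (c.re - 1) + 2 * (c.re * c.im + c.im * c.im) := by ring
    rw [h2]
    exact dvd_add h1 (dvd_mul_right _ _)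
  · have h1 : (2 : ℤ) ∣ c.im * (c.im - 1) := Int.even_mul_pred_self _ |>.two_dvd
    have h2 : (c.re + c.im) * c.im + c.im * (c.re + c.im) + 1 * c.im * c.im - c.im =
      c.im * (c.im - 1) + 2 * (c.re * c.im + c.im * c.im) := by ring
    rw [h2]
    exact dvd_add h1 (dvd_mul_right _ _)

theorem cls_not_two {m : O} (h : Cls m) : ¬ (2 : O) ∣ m := by
  intro hm
  obtain ⟨ν, c, hν, hx⟩ := h.two
  have h1 : (2 : O) ∣ ν ^ 2 := by
    have h2 : ν ^ 2 = 2 * (2 * c) - m := by linear_combination hν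
    rw [h2]
    exact dvd_sub (dvd_mul_right _ _) hm
  have h3 : (2 : O) ∣ ν := prime_two.dvd_of_dvd_pow h1
  obtain ⟨x, hx2⟩ := sqrt_two (-c)
  apply hx x
  have h4 : x ^ 2 + ν * x + c = (x ^ 2 - -c) + ν * x := by ring
  rw [h4]
  exact dvd_add hx2 (Dvd.dvd.mul_right h3 x)

theorem cls_not_three {m : O} (h : Cls m) : ¬ (3 : O) ∣ m := by
  intro hm
  apply h.three 0
  rw [zero_pow two_ne_zero, sub_zero]
  exact hm

theorem inv_mod_four [IsPrincipalIdealRing O] {y : O} (hy : ¬ (2 : O) ∣ y) :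
    ∃ z T : O, y * z = 1 + 8 * T := by
  have h1 : IsCoprime (2 : O) y := (Irreducible.coprime_iff_not_dvd prime_two.irreducible).mpr hy
  have h2 : IsCoprime ((2 : O) ^ 3) y := h1.pow_left
  obtain ⟨a, b, hab⟩ := h2
  refine ⟨b, -a, ?_⟩
  linear_combination hab

theorem cls_div [IsPrincipalIdealRing O] {y m : O} (hy : ¬ (2 : O) ∣ y) (h : Cls (y ^ 2 * m)) :
    Cls m := by
  obtain ⟨z, T, hz⟩ := inv_mod_four hy
  obtain ⟨ν, c, hν, hx⟩ := h.two
  refine ⟨⟨ν * z, c * z ^ 2 - (4 * T + 16 * T ^ 2) * m, ?_, ?_⟩, ?_⟩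
  · linear_combination z ^ 2 * hν - (y * z + 1 + 8 * T) * m * hz
  · intro x hx2
    apply hx (x * y)
    have h3 : (x * y) ^ 2 + ν * (x * y) + c =
        y ^ 2 * (x ^ 2 + ν * z * x + (c * z ^ 2 - (4 * T + 16 * T ^ 2) * m)) +
          2 * (-(4 * T) * (ν * x * y) - c * (8 * T + 32 * T ^ 2) +
            y ^ 2 * (2 * T + 8 * T ^ 2) * m) := by
      linear_combination (-(ν * x * y) - c * (y * z + 1 + 8 * T)) * hz
    rw [h3]
    exact dvd_add (Dvd.dvd.mul_left hx2 _) (dvd_mul_right _ _)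
  · intro x hx3
    apply h.three (y * x)
    have h4 : y ^ 2 * m - (y * x) ^ 2 = y ^ 2 * (m - x ^ 2) := by ring
    rw [h4]
    exact Dvd.dvd.mul_left hx3 _

end Pool.Agent.Leo4.H47
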