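import Pool.Agent.Helper47_Leo4.Sqf1

/-! Squad leo4, module SQF, part 2: the elements divisible by the square of a prime. -/

set_option autoImplicit false

namespace Pool.Agent.Leo4.H47

open Pool.Agent.Leo4

/-- the counted set -/
def FS (N : ℝ) : Set O := {m : O | Fd m ∧ Cls m ∧ (nm m : ℝ) ≤ N}

/-- the multiples of `y²` in the counted set -/
def ES (N : ℝ) (y : O) : Set O := {m : O | m ∈ FS N ∧ y ^ 2 ∣ m}

/-- the elements divisible by the square of a prime of norm `± n` -/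
def DS (N : ℝ) (n : ℕ) : Set O :=
  {m : O | m ∈ FS N ∧ ∃ p : O, Prime p ∧ (nm p).natAbs = n ∧ p ^ 2 ∣ m}

theorem sq_abs_nm (y : O) : ((nm y : ℤ) : ℝ) ^ 2 = (((nm y).natAbs : ℕ) : ℝ) ^ 2 := by
  rw [Nat.cast_natAbs, Int.cast_abs, sq_abs]

theorem es_desc [IsPrincipalIdealRing O] {N : ℝ} {y m : O} (hy0 : y ≠ 0) (hy : ¬ (2 : O) ∣ y)
    (hm : m ∈ ES N y) : ∃ (m' : O) (k : ℤ), m' ∈ FS (N / (nm y : ℝ) ^ 2) ∧
      m = (y * ((ph ^ k : Oˣ) : O)) ^ 2 * m' := by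
  obtain ⟨⟨hF, hC, hN⟩, x, hx⟩ := hm
  obtain ⟨f1, f2, f3, f4⟩ := hF
  have hy1 : 0 < e1 y ^ 2 := by
    have := e1_ne_zero hy0
    positivity
  have hy2 : 0 < e2 y ^ 2 := by
    have := e2_ne_zero hy0
    positivity
  have hx1 : 0 < e1 x := by
    rw [hx, e1_mul, e1_pow] at f1
    exact (mul_pos_iff_of_pos_left hy1).mp f1
  have hx2 : 0 < e2 x := by
    rw [hx, e2_mul, e2_pow] at f2
    exact (mul_pos_iff_of_pos_left hy2).mp f2
  obtain ⟨k, hk⟩ := fd_exists hx1 hx2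
  have hinv : ((ph ^ (-k) : Oˣ) : O) * ((ph ^ k : Oˣ) : O) = 1 := by
    rw [← Units.val_mul, ← zpow_add, neg_add_cancel, zpow_zero, Units.val_one]
  have hm' : m = (y * ((ph ^ (-k) : Oˣ) : O)) ^ 2 * (((ph ^ k : Oˣ) : O) ^ 2 * x) := by
    rw [hx]
    have h1 : (y * ((ph ^ (-k) : Oˣ) : O)) ^ 2 * (((ph ^ k : Oˣ) : O) ^ 2 * x) =
      (((ph ^ (-k) : Oˣ) : O) * ((ph ^ k : Oˣ) : O)) ^ 2 * (y ^ 2 * x) := by ring
    rw [h1, hinv, one_pow, one_mul]
  refine ⟨((ph ^ k : Oˣ) : O) ^ 2 * x, -k, ⟨hk, ?_, ?_⟩, hm'⟩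
  · have h2 : ¬ (2 : O) ∣ y * ((ph ^ (-k) : Oˣ) : O) := by
      intro h3
      exact hy ((Units.isUnit (ph ^ (-k))).dvd_mul_right.mp h3)
    exact cls_div h2 (hm' ▸ hC)
  · have h4 : (nm m : ℝ) = (nm y : ℝ) ^ 2 * (nm (((ph ^ k : Oˣ) : O) ^ 2 * x) : ℝ) := by
      have h5 : nm m = nm y ^ 2 * nm (((ph ^ k : Oˣ) : O) ^ 2 * x) := by
        rw [hx, nm_mul, nm_pow, nm_mul, nm_ph2, one_mul]
      exact_mod_cast h5
    have h6 : 0 < (nm y : ℝ) ^ 2 := by
      have : (nm y : ℝ) ≠ 0 := by exact_mod_cast nm_ne_zero hy0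
      positivity
    rw [le_div_iff₀ h6, mul_comm, ← h4]
    exact hN

theorem es_card [IsPrincipalIdealRing O] (hfin : ∀ N : ℝ, (FS N).Finite) (N : ℝ) {y : O}
    (hy0 : y ≠ 0) (hy : ¬ (2 : O) ∣ y) :
    (ES N y).ncard ≤ (FS (N / (nm y : ℝ) ^ 2)).ncard := by
  classical
  have hex : ∀ m : O, ∃ m' : O, m ∈ ES N y → ∃ k : ℤ, m' ∈ FS (N / (nm y : ℝ) ^ 2) ∧
      m = (y * ((ph ^ k : Oˣ) : O)) ^ 2 * m' := by
    intro m
    by_cases hm : m ∈ ES N y
    · obtain ⟨m', k, h⟩ := es_desc hy0 hy hm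
      exact ⟨m', fun _ => ⟨k, h⟩⟩
    · exact ⟨0, fun h => absurd h hm⟩
  choose f hf using hex
  refine Set.ncard_le_ncard_of_injOn f (fun m hm => ?_) ?_ (hfin _)
  · obtain ⟨k, h, -⟩ := hf m hm
    exact h
  · intro m1 h1 m2 h2 h12
    obtain ⟨a, -, ha⟩ := hf m1 h1
    obtain ⟨b, -, hb⟩ := hf m2 h2
    refine fd_unique h1.1.1 h2.1.1 (c := a - b) ?_
    rw [ha, h12, hb]
    have h3 : ((ph ^ a : Oˣ) : O) = ((ph ^ (a - b) : Oˣ) : O) * ((ph ^ b : Oˣ) : O) := by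
      rw [← Units.val_mul, ← zpow_add, sub_add_cancel]
    rw [← hb, ← h12]
    have h4 : m2 = (y * ((ph ^ b : Oˣ) : O)) ^ 2 * f m1 := by rw [h12]; exact hb
    rw [h4, h3]
    ring

/-! ### primes -/

theorem not_two_dvd {p m : O} (hC : Cls m) (hd : p ^ 2 ∣ m) : ¬ (2 : O) ∣ p := fun h =>
  cls_not_two hC (h.trans ((dvd_pow_self p two_ne_zero).trans hd))

theorem not_three_dvd {p m : O} (hC : Cls m) (hd : p ^ 2 ∣ m) : ¬ (3 : O) ∣ p := fun h =>
  cls_not_three hC (h.trans ((dvd_pow_self p two_ne_zero).trans hd))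

/-- `√5` -/
def s5 : O := ⟨-1, 2⟩

theorem nm_s5 : nm s5 = -5 := by
  simp [nm, s5]

theorem s5_dvd {x : O} (h : (5 : ℤ) ∣ nm x) : s5 ∣ x := by
  have h1 : (5 : ℤ) ∣ 2 * x.re + x.im := by
    have h2 : (5 : ℤ) ∣ (2 * x.re + x.im) ^ 2 := by
      obtain ⟨t, ht⟩ := h
      refine ⟨4 * t + x.im ^ 2, ?_⟩
      rw [nm] at ht
      linear_combination 4 * ht
    exact Int.Prime.dvd_pow' (by norm_num) h2
  obtain ⟨b, hb⟩ := h1
  refine ⟨⟨2 * b - x.re, b⟩, ?_⟩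
  ext
  · simp only [s5, QuadraticAlgebra.re_mul]
    ring
  · simp only [s5, QuadraticAlgebra.im_mul]
    linear_combination hb

theorem not_two_s5 : ¬ (2 : O) ∣ s5 := by
  rw [two_dvd_iff]
  rintro ⟨h, -⟩
  simp only [s5] at h
  omega

/-- admissible norms -/
def NN (n : ℕ) : Prop := n ≠ 1 ∧ (n % 30 = 1 ∨ n % 30 = 11 ∨ n % 30 = 19 ∨ n % 30 = 29)

theorem prime_norm {p : O} (hp : Prime p) (h2 : ¬ (2 : O) ∣ p) (h3 : ¬ (3 : O) ∣ p)
    (h5 : ¬ (5 : ℤ) ∣ nm p) : NN (nm p).natAbs := by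
  have g2 : ¬ (2 : ℤ) ∣ nm p := fun h => h2 (two_dvd_nm h)
  have g3 : ¬ (3 : ℤ) ∣ nm p := fun h => h3 (three_dvd_nm h)
  have g1 : (nm p).natAbs ≠ 1 := by
    intro h
    apply hp.not_isUnit
    rw [isUnit_iff_nm]
    omega
  have g5 : (nm p) % 5 = 1 ∨ (nm p) % 5 = 4 := by
    have h4 : (4 * nm p) % 5 = ((2 * p.re + p.im) ^ 2) % 5 := by
      have h6 : 4 * nm p = (2 * p.re + p.im) ^ 2 + 5 * (-(p.im ^ 2)) := by
        rw [nm]
        ring
      rw [h6, Int.add_mul_emod_self_left]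
    have h7 : ((2 * p.re + p.im) ^ 2) % 5 = 0 ∨ ((2 * p.re + p.im) ^ 2) % 5 = 1 ∨
        ((2 * p.re + p.im) ^ 2) % 5 = 4 := by
      generalize 2 * p.re + p.im = t
      have h8 : t ^ 2 % 5 = (t % 5) ^ 2 % 5 := by
        rw [pow_two, pow_two, Int.mul_emod]
      have h9 : t % 5 = 0 ∨ t % 5 = 1 ∨ t % 5 = 2 ∨ t % 5 = 3 ∨ t % 5 = 4 := by omega
      rcases h9 with h | h | h | h | h <;> rw [h8, h] <;> norm_num
    omega
  refine ⟨g1, ?_⟩
  rcases Int.natAbs_eq (nm p) with h | h <;> omega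

theorem prime_assoc {p p0 : O} (hp : Prime p) (hp0 : Prime p0)
    (h : (nm p).natAbs = (nm p0).natAbs) : p0 ∣ p ∨ star p0 ∣ p := by
  have h1 : p ∣ p0 * star p0 := by
    rw [mul_star_eq]
    have h2 : p ∣ ((nm p : ℤ) : O) := by
      rw [← mul_star_eq]
      exact dvd_mul_right _ _
    rcases Int.natAbs_eq_natAbs_iff.mp h with h3 | h3
    · rw [← h3]
      exact h2
    · have h4 : ((nm p0 : ℤ) : O) = -((nm p : ℤ) : O) := by
        rw [h3]
        push_cast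
        ring
      rw [h4]
      exact (dvd_neg).mpr h2
  have key : ∀ x : O, (nm x).natAbs = (nm p).natAbs → x ≠ 0 → p ∣ x → x ∣ p := by
    rintro x hx hx0 ⟨t, rfl⟩
    have h5 : (nm t).natAbs = 1 := by
      rw [nm_mul, Int.natAbs_mul] at hx
      have h6 : 0 < (nm p).natAbs := Int.natAbs_pos.mpr (nm_ne_zero hp.ne_zero)
      have h7 : (nm p).natAbs * (nm t).natAbs = (nm p).natAbs * 1 := by rw [hx, mul_one]
      exact Nat.eq_of_mul_eq_mul_left h6 h7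
    have h8 : IsUnit t := by
      rw [isUnit_iff_nm]
      omega
    exact (h8.mul_right_dvd).mpr dvd_rfl
  rcases hp.dvd_or_dvd h1 with h2 | h2
  · exact Or.inl (key p0 h.symm hp0.ne_zero h2)
  · refine Or.inr (key (star p0) (by rw [nm_star]; exact h.symm) ?_ h2)
    intro h3
    apply hp0.ne_zero
    rw [← star_star p0, h3, star_zero]

/-- the weights -/
def wt (n : ℕ) : ℕ :=
  if n = 5 then 1 else if n ≠ 1 ∧ (n % 30 = 1 ∨ n % 30 = 11 ∨ n % 30 = 19 ∨ n % 30 = 29) then 2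
    else 0

theorem ds_card [IsPrincipalIdealRing O] (hfin : ∀ N : ℝ, (FS N).Finite) (N : ℝ) (n : ℕ) :
    (DS N n).ncard ≤ wt n * (FS (N / (n : ℝ) ^ 2)).ncard := by
  rcases Set.eq_empty_or_nonempty (DS N n) with h | ⟨m0, hm0⟩
  · rw [h, Set.ncard_empty]
    exact Nat.zero_le _
  obtain ⟨⟨hF0, hC0, hN0⟩, p0, hp0, hn0, hd0⟩ := hm0
  have h2 := not_two_dvd hC0 hd0
  have h3 := not_three_dvd hC0 hd0
  have hES : ∀ y : O, ES N y ⊆ FS N := fun y m hm => hm.1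
  by_cases h5 : (5 : ℤ) ∣ nm p0
  · -- the prime √5
    have h6 : s5 ∣ p0 := s5_dvd h5
    have h7 : n = 5 := by
      obtain ⟨t, ht⟩ := h6
      have h8 : IsUnit t := by
        rcases (hp0.irreducible).isUnit_or_isUnit ht with h | h
        · exfalso
          rw [isUnit_iff_nm, nm_s5] at h
          omega
        · exact h
      rw [isUnit_iff_nm] at h8
      rw [← hn0, ht, nm_mul, nm_s5]
      rcases h8 with h | h <;> rw [h] <;> rfl
    have hsub : DS N n ⊆ ES N s5 := by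
      rintro m ⟨hm, p, hp, hpn, hpd⟩
      refine ⟨hm, ?_⟩
      have h9 : (5 : ℤ) ∣ nm p := by
        have h10 : (5 : ℕ) ∣ (nm p).natAbs := by rw [hpn, h7]
        exact Int.natCast_dvd.mpr h10
      exact (pow_dvd_pow_of_dvd (s5_dvd h9) 2).trans hpd
    have hs0 : s5 ≠ 0 := by
      intro h
      have := nm_s5
      rw [h, nm_zero] at this
      omega
    calc (DS N n).ncard ≤ (ES N s5).ncard :=
          Set.ncard_le_ncard hsub ((hfin N).subset (hES _))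
      _ ≤ (FS (N / (nm s5 : ℝ) ^ 2)).ncard := es_card hfin N hs0 not_two_s5
      _ = wt n * (FS (N / (n : ℝ) ^ 2)).ncard := by
          rw [sq_abs_nm, nm_s5, h7]
          have h11 : (-5 : ℤ).natAbs = 5 := rfl
          rw [h11]
          have h12 : wt 5 = 1 := rfl
          rw [h12, one_mul]
  · have hnn : NN n := hn0 ▸ prime_norm hp0 h2 h3 h5
    have hn5 : n ≠ 5 := by
      rintro rfl
      obtain ⟨-, h | h | h | h⟩ := hnn <;> omega
    have hw : wt n = 2 := by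
      unfold wt
      rw [if_neg hn5]
      exact if_pos hnn
    have hsub : DS N n ⊆ ES N p0 ∪ ES N (star p0) := by
      rintro m ⟨hm, p, hp, hpn, hpd⟩
      rcases prime_assoc hp hp0 (hpn.trans hn0.symm) with h | h
      · exact Or.inl ⟨hm, (pow_dvd_pow_of_dvd h 2).trans hpd⟩
      · exact Or.inr ⟨hm, (pow_dvd_pow_of_dvd h 2).trans hpd⟩
    have h2s : ¬ (2 : O) ∣ star p0 := by
      rintro ⟨t, ht⟩
      apply h2
      refine ⟨star t, ?_⟩
      have h13 := congrArg star ht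
      rw [star_star, star_mul', star_ofNat] at h13
      exact h13
    have hps : star p0 ≠ 0 := by
      intro h
      apply hp0.ne_zero
      rw [← star_star p0, h, star_zero]
    calc (DS N n).ncard ≤ (ES N p0 ∪ ES N (star p0)).ncard :=
          Set.ncard_le_ncard hsub ((hfin N).subset (Set.union_subset (hES _) (hES _)))
      _ ≤ (ES N p0).ncard + (ES N (star p0)).ncard := Set.ncard_union_le _ _
      _ ≤ (FS (N / (nm p0 : ℝ) ^ 2)).ncard + (FS (N / (nm (star p0) : ℝ) ^ 2)).ncard :=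
          add_le_add (es_card hfin N hp0.ne_zero h2) (es_card hfin N hps h2s)
      _ = wt n * (FS (N / (n : ℝ) ^ 2)).ncard := by
          rw [sq_abs_nm, sq_abs_nm, nm_star, hn0, hw, two_mul]

end Pool.Agent.Leo4.H47
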